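import Pool.Agent.Helper49.NF.Goals
import Pool.Agent.Helper59.SR.M01

/-! Packet NF-M1 (MP_0130f7_co). -/

set_option autoImplicit false

open Finset

namespace Pool.Agent.Helper79.NF

open Pool.Agent.Helper47.SR (Grp mv lev wt Ew W IsInv up dn StarAt HalfStarAt)
open Pool.Agent.Helper49.NF
open Pool.Agent.Helper59.SR (W_eq pts card_pts dn1_eq up1_eq pts_inv two_choose)

variable {n : ℕ}

/-- double counting of pairs -/
lemma two_sum_pairs (P : Finset (Fin n)) (F : Finset (Fin n) → ℕ) :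
    2 * ∑ A ∈ powersetCard 2 P, F A = ∑ v ∈ P, ∑ u ∈ P.erase v, F {u, v} := by
  have h1 : ∑ v ∈ P, ∑ u ∈ P.erase v, F {u, v} = ∑ v ∈ P, ∑ A ∈ (powersetCard 2 P).filter
      (fun A => v ∈ A), F A := by
    refine Finset.sum_congr rfl fun v hv => ?_
    refine Finset.sum_bij (fun u _ => ({u, v} : Finset (Fin n))) ?_ ?_ ?_ ?_
    · intro u hu
      rw [mem_erase] at hu
      rw [mem_filter, mem_powersetCard]
      refine ⟨⟨?_, card_pair hu.1⟩, by simp⟩
      intro x hx
      rcases mem_insert.1 hx with h | h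
      · rw [h]; exact hu.2
      · rw [mem_singleton.1 h]; exact hv
    · intro a ha b hb hab
      rw [mem_erase] at ha hb
      have h2 : a ∈ ({b, v} : Finset (Fin n)) := by
        rw [← hab]
        simp
      rcases mem_insert.1 h2 with h | h
      · exact h
      · exact absurd (mem_singleton.1 h) ha.1
    · intro A hA
      rw [mem_filter, mem_powersetCard] at hA
      obtain ⟨⟨h3, h4⟩, h5⟩ := hA
      have h6 : #(A.erase v) = 1 := by rw [card_erase_of_mem h5, h4]
      obtain ⟨u, hu⟩ := card_eq_one.1 h6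
      have h7 : u ∈ A.erase v := by rw [hu]; simp
      rw [mem_erase] at h7
      refine ⟨u, mem_erase.2 ⟨h7.1, h3 h7.2⟩, ?_⟩
      rw [← insert_erase h5, hu, pair_comm]
    · intro u _
      rfl
  have h2 : ∑ v ∈ P, ∑ A ∈ (powersetCard 2 P).filter (fun A => v ∈ A), F A =
      ∑ A ∈ powersetCard 2 P, ∑ v ∈ P.filter (fun v => v ∈ A), F A := by
    simp_rw [Finset.sum_filter]
    exact Finset.sum_comm
  rw [h1, h2, Finset.mul_sum]
  refine Finset.sum_congr rfl fun A hA => ?_
  rw [mem_powersetCard] at hA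
  rw [Finset.sum_const]
  have h3 : P.filter (fun v => v ∈ A) = A := by
    ext x
    rw [mem_filter]
    exact ⟨fun h => h.2, fun h => ⟨hA.1 h, h⟩⟩
  rw [h3, hA.2, smul_eq_mul]

lemma wt_single (G : Grp n) (u : Fin n) : 1 + wt G {u} = stc G u := by
  classical
  unfold wt stc els
  have h : ((univ : Finset (Equiv.Perm (Fin n))).filter (fun γ => γ ∈ G)).filter
      (fun γ => γ u = u) = insert 1 ((univ : Finset (Equiv.Perm (Fin n))).filter
        (fun γ => γ ∈ G ∧ γ ≠ 1 ∧ mv γ {u} = {u})) := by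
    ext γ
    simp only [mem_filter, mem_univ, true_and, mem_insert, mv, map_singleton, singleton_inj,
      Equiv.coe_toEmbedding]
    constructor
    · rintro ⟨h1, h2⟩
      by_cases h3 : γ = 1
      · exact Or.inl h3
      · exact Or.inr ⟨h1, h3, h2⟩
    · rintro (h1 | h1)
      · rw [h1]
        exact ⟨G.one_mem, rfl⟩
      · exact ⟨h1.1, h1.2.2⟩
  have h2 : (1 : Equiv.Perm (Fin n)) ∉ (univ : Finset (Equiv.Perm (Fin n))).filter
        (fun γ => γ ∈ G ∧ γ ≠ 1 ∧ mv γ {u} = {u}) := by simp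
  have h3 := congrArg Finset.card h
  rw [card_insert_of_notMem h2] at h3
  convert! h3.symm using 1
  rw [add_comm]

lemma W_one {K f : ℕ} (G : Grp n) (hG : Nfr n K f G) (F : Finset (Finset (Fin n)))
    (hF : F ⊆ lev n 1) : W G F = K * #(pts F) := by
  rw [← card_pts F hF]
  unfold W
  rw [Finset.sum_congr rfl (g := fun _ => K), Finset.sum_const, smul_eq_mul, mul_comm]
  intro A hA
  obtain ⟨-, h1⟩ := mem_powersetCard.1 (hF hA)
  obtain ⟨u, rfl⟩ := card_eq_one.1 h1
  rw [wt_single, hG.st]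

lemma size_bound (n K f : ℕ) (hn : 14 ^ 100 ≤ n) (hK : 1 ≤ K) (h1 : K ^ 100 ≤ n)
    (h2 : f ^ 5 ≤ n ^ 4) : 6 * (K ^ 2 * (f + 1)) + 2 ≤ n := by
  have hn1 : 1 ≤ n := le_trans (Nat.one_le_pow _ _ (by norm_num)) hn
  obtain ⟨g, hg⟩ : ∃ g, g = max f 1 := ⟨_, rfl⟩
  have hg1 : 1 ≤ g := by rw [hg]; exact le_max_right _ _
  have hfg : f ≤ g := by rw [hg]; exact le_max_left _ _
  have hg5 : g ^ 5 ≤ n ^ 4 := by
    rcases le_total f 1 with h | h
    · have : g = 1 := by rw [hg]; exact max_eq_right h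
      rw [this, one_pow]
      exact Nat.one_le_pow _ _ hn1
    · have : g = f := by rw [hg]; exact max_eq_left h
      rw [this]
      exact h2
  have h3 : 14 * (K ^ 2 * g) ≤ n := by
    by_contra h4
    push Not at h4
    have h5 : n ^ 100 < (14 * (K ^ 2 * g)) ^ 100 := Nat.pow_lt_pow_left h4 (by norm_num)
    have h6 : (14 * (K ^ 2 * g)) ^ 100 = 14 ^ 100 * ((K ^ 100) ^ 2 * (g ^ 5) ^ 20) := by
      rw [mul_pow, mul_pow, ← pow_mul, ← pow_mul, ← pow_mul]
    have h7 : 14 ^ 100 * ((K ^ 100) ^ 2 * (g ^ 5) ^ 20) ≤ n * (n ^ 2 * (n ^ 4) ^ 20) :=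
      Nat.mul_le_mul hn (Nat.mul_le_mul (Nat.pow_le_pow_left h1 2) (Nat.pow_le_pow_left hg5 20))
    have h8 : n * (n ^ 2 * (n ^ 4) ^ 20) = n ^ 83 := by ring
    have h9 : n ^ 83 ≤ n ^ 100 := Nat.pow_le_pow_right hn1 (by norm_num)
    rw [h6] at h5
    rw [h8] at h7
    exact absurd (h5.trans_le (h7.trans h9)) (lt_irrefl _)
  have hKg : 1 ≤ K ^ 2 * g := Nat.one_le_iff_ne_zero.2
    (Nat.mul_ne_zero (pow_ne_zero _ (by omega)) (by omega))
  have h10 : K ^ 2 * (f + 1) ≤ K ^ 2 * (2 * g) := Nat.mul_le_mul_left _ (by omega)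
  have h11 : K ^ 2 * (2 * g) = 2 * (K ^ 2 * g) := by ring
  omega

lemma arith1 (n s y d K f ES EY : ℤ) (hs : s ≤ n) (hy : 0 ≤ y) (hys : y < s) (hyn : 2 * y ≤ n)
    (hd : 0 ≤ d) (hK : 1 ≤ K) (hf : 0 ≤ f) (hES : s * d ≤ 2 * ES + s * (K + K ^ 2 * f))
    (hEY : 2 * EY ≤ y * d + y * (2 * K ^ 2 * f)) (hn : 6 * (K ^ 2 * (f + 1)) + 2 ≤ n) :
    y * (y - 1) + 2 * EY + 2 * (K * s) ≤ s * (2 * n - s - 1) + 2 * ES + 2 * (K * y) := by
  have hs0 : 0 ≤ s := by linarith
  have h1 : 0 ≤ d * (s - y) := mul_nonneg hd (by linarith)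
  have hKf : 0 ≤ K ^ 2 * f := by positivity
  have h2 : (K ^ 2 * f) * y ≤ (K ^ 2 * f) * s := mul_le_mul_of_nonneg_left hys.le hKf
  have hKy : 0 ≤ K * y := mul_nonneg (by linarith) hy
  have hKK : K ≤ K ^ 2 := by nlinarith
  have h3 : K * s ≤ K ^ 2 * s := mul_le_mul_of_nonneg_right hKK hs0
  have h4 : s * (6 * (K ^ 2 * (f + 1)) + 2) ≤ s * n := mul_le_mul_of_nonneg_left hn hs0
  have h5 : 2 * y ^ 2 + s * (n - 2) ≤ 2 * (s * (2 * n - s - 1)) := by
    have hn0 : 0 ≤ n := by linarith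
    rcases le_total (2 * s) n with h | h
    · have h6 : y ^ 2 ≤ s ^ 2 := by nlinarith
      have h7 : s * (2 * s) ≤ s * n := mul_le_mul_of_nonneg_left h hs0
      have h8 : 0 ≤ s * n := mul_nonneg hs0 hn0
      nlinarith
    · have h6 : 2 * y * (2 * y) ≤ n * n := mul_le_mul hyn hyn (by linarith) hn0
      have h7 : n * n ≤ (2 * s) * n := mul_le_mul_of_nonneg_right h hn0
      have h8 : s * s ≤ s * n := mul_le_mul_of_nonneg_left hs hs0
      nlinarith
  nlinarith

theorem goal_M1 (hDEG : Goal_DEG) : Goal_M1 := by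
  refine ⟨14 ^ 100, fun n hn K f G hG hKn hfn => ?_⟩
  intro S Y hS hY hSi hYi hhalf hlt
  obtain ⟨w, d, hw1, hw2, hw3, hw4, hw5⟩ := hDEG n K f G hG
  have hK := hG.K1
  rw [W_one G hG S hS, W_one G hG Y hY] at hlt ⊢
  rw [W_one G hG Y hY, W_one G hG (lev n 1) (Finset.Subset.refl _)] at hhalf
  have hpl : pts (lev n 1) = univ := by
    ext u
    simp [pts, lev]
  rw [hpl, Finset.card_univ, Fintype.card_fin] at hhalf
  have hys : #(pts Y) < #(pts S) := lt_of_mul_lt_mul_left hlt (Nat.zero_le _)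
  have hyn : 2 * #(pts Y) ≤ n := by
    have h1 : K * (2 * #(pts Y)) ≤ K * n := by
      calc K * (2 * #(pts Y)) = 2 * (K * #(pts Y)) := by ring
        _ ≤ K * n := hhalf
    exact le_of_mul_le_mul_left h1 (by omega)
  have hsn : #(pts S) ≤ n := by
    have := Finset.card_le_univ (pts S)
    simpa using this
  -- lower bound for the upper family
  have hES : #(pts S) * d ≤ 2 * Ew G (up 1 S) + #(pts S) * (K + K ^ 2 * f) := by
    have h1 : ∑ A ∈ powersetCard 2 (pts S), w A ≤ Ew G (up 1 S) := by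
      unfold Ew
      calc ∑ A ∈ powersetCard 2 (pts S), w A ≤ ∑ A ∈ powersetCard 2 (pts S), wt G A := by
            refine Finset.sum_le_sum fun A hA => hw2 A ?_
            exact Finset.powersetCard_mono (Finset.subset_univ _) hA
        _ ≤ ∑ A ∈ up 1 S, wt G A := by
            refine Finset.sum_le_sum_of_subset ?_
            intro A hA
            rw [up1_eq, mem_sdiff]
            refine ⟨Finset.powersetCard_mono (Finset.subset_univ _) hA, ?_⟩
            intro h2
            rw [mem_powersetCard] at hA h2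
            have hne : A.Nonempty := by rw [← card_pos, hA.2]; norm_num
            obtain ⟨v, hv⟩ := hne
            have h3 := h2.1 hv
            rw [mem_compl] at h3
            exact h3 (hA.1 hv)
    have h2 := two_sum_pairs (pts S) w
    have h3 : ∀ v ∈ pts S, ∑ u ∈ (pts S).erase v, w {u, v} = ∑ u ∈ univ.erase v, w {u, v} := by
      intro v hv
      refine Finset.sum_subset (Finset.erase_subset_erase _ (Finset.subset_univ _)) ?_
      intro u hu hu2
      rw [mem_erase] at hu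
      have h4 := hw1 {u, v}
      by_contra h5
      have h6 : w {u, v} = 1 := by omega
      obtain ⟨γ, hγ, h7⟩ := hw5 u v hu.1 h6
      refine hu2 (mem_erase.2 ⟨hu.1, ?_⟩)
      have h8 := pts_inv G S hSi γ⁻¹ (G.inv_mem hγ) v hv
      have h9 : γ⁻¹ v = u := by rw [← h7]; simp
      rw [h9] at h8
      exact h8
    rw [Finset.sum_congr rfl h3] at h2
    have h4 : #(pts S) * d ≤ ∑ v ∈ pts S, (∑ u ∈ univ.erase v, w {u, v} + (K + K ^ 2 * f)) := by
      rw [← smul_eq_mul, ← Finset.sum_const]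
      exact Finset.sum_le_sum fun v _ => (hw3 v).2
    rw [Finset.sum_add_distrib, Finset.sum_const, smul_eq_mul, ← h2] at h4
    omega
  -- upper bound for the lower family
  have hEY : 2 * Ew G (dn 1 Y) ≤ #(pts Y) * d + #(pts Y) * (2 * K ^ 2 * f) := by
    unfold Ew
    rw [dn1_eq, two_sum_pairs]
    calc ∑ v ∈ pts Y, ∑ u ∈ (pts Y).erase v, wt G {u, v}
        ≤ ∑ v ∈ pts Y, (d + 2 * K ^ 2 * f) := by
          refine Finset.sum_le_sum fun v _ => ?_
          calc ∑ u ∈ (pts Y).erase v, wt G {u, v} ≤ ∑ u ∈ univ.erase v, wt G {u, v} :=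
                Finset.sum_le_sum_of_subset
                  (Finset.erase_subset_erase _ (Finset.subset_univ _))
            _ ≤ ∑ u ∈ univ.erase v, w {u, v} + 2 * K ^ 2 * f := hw4 v
            _ ≤ d + 2 * K ^ 2 * f := Nat.add_le_add_right (hw3 v).1 _
      _ = _ := by
          rw [Finset.sum_const, smul_eq_mul]
          ring
  have hcd : 2 * (#(dn 1 Y) : ℤ) = #(pts Y) * (#(pts Y) - 1) := by
    rw [dn1_eq, Finset.card_powersetCard]
    exact two_choose _
  have hcu : 2 * (#(up 1 S) : ℤ) = #(pts S) * (2 * n - #(pts S) - 1) := by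
    rw [up1_eq, Finset.card_sdiff_of_subset
        (Finset.powersetCard_mono (Finset.subset_univ _)), Finset.card_powersetCard,
        Finset.card_powersetCard, Finset.card_compl, Finset.card_univ,
        Fintype.card_fin]
    have h4 : (n - #(pts S)).choose 2 ≤ n.choose 2 := Nat.choose_le_choose _ (by omega)
    rw [Nat.cast_sub h4]
    have h5 := two_choose n
    have h6 := two_choose (n - #(pts S))
    rw [Nat.cast_sub hsn] at h6
    linarith [h5, h6, show (n : ℤ) * (n - 1) - (n - #(pts S)) * (n - #(pts S) - 1) =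
      #(pts S) * (2 * n - #(pts S) - 1) by ring]
  have key := arith1 n #(pts S) #(pts Y) d K f (Ew G (up 1 S)) (Ew G (dn 1 Y))
    (by exact_mod_cast hsn) (Int.natCast_nonneg _) (by exact_mod_cast hys)
    (by exact_mod_cast hyn) (Int.natCast_nonneg _) (by exact_mod_cast hK)
    (Int.natCast_nonneg _) (by exact_mod_cast hES) (by exact_mod_cast hEY)
    (by exact_mod_cast size_bound n K f hn hK hKn hfn)
  rw [W_eq, W_eq]
  rw [← hcd, ← hcu] at key
  zify
  linarith

end Pool.Agent.Helper79.NF
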