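import Pool.Agent.Helper49.NF.Goals

/-! Packet NF-R1A (MP_0130f7_co). -/

set_option autoImplicit false

open Finset

namespace Pool.Agent.Helper79.NF

open Pool.Agent.Helper47.SR (Grp mv lev wt Ew W IsInv up dn StarAt HalfStarAt Goal_SYM)
open Pool.Agent.Helper49.NF

variable {n : ℕ}

lemma r1a_W_eq (G : Grp n) (F : Finset (Finset (Fin n))) : W G F = #F + Ew G F := by
  unfold W Ew
  rw [Finset.sum_add_distrib]
  simp

lemma r1a_Nn_zero (G : Grp n) (j s : ℕ) (h : ∀ A ∈ lev n j, 1 + wt G A < s) : Nn G j s = 0 := by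
  unfold Nn
  refine Finset.sum_eq_zero fun A hA => ?_
  rw [mem_filter] at hA
  exact absurd hA.2 (not_le.2 (h A hA.1))

theorem goal_R1A (hSTB : Goal_STB) (hEJ : Goal_EJ) (hSB : Goal_SB) (hCLS : Goal_CLS)
    (hSYM : Goal_SYM) (hN1A : Goal_N1A) (hN1C : Goal_N1C) : Goal_R1A := by
  obtain ⟨n₁, hN1⟩ := hN1A
  obtain ⟨n₂, hN2⟩ := hN1C
  refine ⟨max n₁ n₂, ?_⟩
  intro n hn K f G hG hK hf m hm hmn
  have hA := hN1 n (le_trans (le_max_left _ _) hn) m K f hm hmn hG.K1 hK hf
  obtain ⟨c1, c2, c3, c4, c5⟩ := hN2 n (le_trans (le_max_right _ _) hn) m K hm hmn hG.K1 hK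
  refine hSYM n G m ?_
  intro S Y hS hY hSi hYi hhalf hlt
  change Sat G m S Y
  have hFam : Fam G m S Y := ⟨hS, hY, hSi, hYi, hlt⟩
  generalize ht : n / (4 * m) = t at *
  generalize hs : K * (m + 1) = s at *
  generalize hz : n / (4 * s ^ 2) = z at *
  have hK1 := hG.K1
  have hs1 : 1 ≤ s := by
    rw [← hs]
    exact Nat.one_le_iff_ne_zero.2 (Nat.mul_ne_zero (by omega) (by omega))
  have ht4 : 4 * m * t ≤ n := by
    rw [← ht]
    exact Nat.mul_div_le _ _
  have ht12 : 12 * t ≤ n := by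
    calc 12 * t ≤ 4 * m * t := Nat.mul_le_mul_right _ (by omega)
      _ ≤ n := ht4
  have hzn : z ≤ n := by
    rw [← hz]
    exact Nat.div_le_self _ _
  have hTT : TT G m ≤ t * z.choose m := by
    unfold TT
    calc (m + 1) * Ew G (lev n (m + 1)) + (n - m) * Ew G (lev n m)
        ≤ (m + 1) * (K * n * Ma n f (m + 1)) + (n - m) * (K * n * Ma n f m) :=
          Nat.add_le_add (Nat.mul_le_mul_left _ (hEJ n K f G hG (m + 1)).1)
            (Nat.mul_le_mul_left _ (hEJ n K f G hG m).1)
      _ ≤ t * z.choose m := hA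
  have hcz : z.choose m ≤ n.choose m := Nat.choose_le_choose _ hzn
  have hE4 : 4 * Ew G (lev n m) ≤ n.choose m := by
    have h1 : (n - m) * Ew G (lev n m) ≤ t * n.choose m := by
      calc (n - m) * Ew G (lev n m) ≤ TT G m := Nat.le_add_left _ _
        _ ≤ t * z.choose m := hTT
        _ ≤ t * n.choose m := Nat.mul_le_mul_left _ hcz
    have h2 : (n - m) * (4 * Ew G (lev n m)) ≤ (n - m) * n.choose m := by
      calc (n - m) * (4 * Ew G (lev n m)) = 4 * ((n - m) * Ew G (lev n m)) := by ring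
        _ ≤ 4 * (t * n.choose m) := Nat.mul_le_mul_left _ h1
        _ = (4 * t) * n.choose m := by ring
        _ ≤ (n - m) * n.choose m := Nat.mul_le_mul_right _ (by omega)
    exact le_of_mul_le_mul_left h2 (by omega)
  have hWl : W G (lev n m) = n.choose m + Ew G (lev n m) := by
    rw [r1a_W_eq, card_powersetCard, card_univ, Fintype.card_fin]
  have hYW : #Y ≤ W G Y := by
    rw [r1a_W_eq]
    exact Nat.le_add_right _ _
  by_cases hcase : TT G m ≤ t * W G Y
  · refine hSB n m (n - t) G S Y (by omega) c5 (by omega) (Nat.sub_le _ _) hFam (by omega) ?_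
    have h1 : n - (n - t) = t := by omega
    rw [h1]
    exact hcase.trans (Nat.le_add_right _ _)
  · have h1 : W G Y < z.choose m := by
      have h2 : t * W G Y < t * z.choose m := lt_of_lt_of_le (not_le.1 hcase) hTT
      exact lt_of_mul_lt_mul_left h2 (Nat.zero_le _)
    have hstb := (hSTB n K f G hG).2.2.1
    have hbound : ∀ j, 1 ≤ j → j ≤ m + 1 → ∀ A ∈ lev n j, 1 + wt G A < s + 1 := by
      intro j hj hjm A hA
      obtain ⟨-, hA2⟩ := mem_powersetCard.1 hA
      have hne : A.Nonempty := by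
        rw [← card_pos, hA2]
        omega
      have h2 := hstb A hne
      rw [hA2] at h2
      have h3 : K * j ≤ s := by
        rw [← hs]
        exact Nat.mul_le_mul_left _ hjm
      omega
    have e1 : Nn G m (s + 1) = 0 := r1a_Nn_zero G m (s + 1) (hbound m (by omega) (by omega))
    have e2 : Nn G (m + 1) (s + 1) = 0 :=
      r1a_Nn_zero G (m + 1) (s + 1) (hbound (m + 1) (by omega) le_rfl)
    refine hCLS n m s (z - m) m G S Y (by omega) c5 hs1 hFam ?_ ?_ ?_ ?_ ?_ ?_
    · have h2 : n - m + m = n := by omega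
      rw [h2, Nat.choose_symm (by omega)]
      calc #S ≤ #(lev n m) := card_le_card hS
        _ = n.choose m := by rw [card_powersetCard, card_univ, Fintype.card_fin]
    · have h2 : m + (z - m) = z := by omega
      rw [h2]
      omega
    · rw [e1]
      exact Nat.zero_le _
    · rw [e2]
      exact Nat.zero_le _
    · have h2 : s * (z - m) ≤ s * z := Nat.mul_le_mul_left _ (Nat.sub_le _ _)
      calc 64 * (s * (m + 1) * (s * (z - m))) + s * (m + 1) * (m + 1)
          ≤ 64 * (s * (m + 1) * (s * z)) + s * (m + 1) * (m + 1) :=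
            Nat.add_le_add_right (Nat.mul_le_mul_left _ (Nat.mul_le_mul_left _ h2)) _
        _ = (64 * s ^ 2 * z + s * (m + 1)) * (m + 1) := by ring
        _ ≤ (63 * (n - m)) * (m + 1) := Nat.mul_le_mul_right _ c3
        _ = 63 * ((n - m) * (m + 1)) := by ring
    · calc 65 * (s * (m + 1) * (m + 1)) = (65 * (s * (m + 1))) * (m + 1) := by ring
        _ ≤ (63 * (n - m)) * (m + 1) := Nat.mul_le_mul_right _ c4
        _ = 63 * ((n - m) * (m + 1)) := by ring

end Pool.Agent.Helper79.NF
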